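import Mathlib
set_option autoImplicit false

namespace Pool.Agent.Results.MP_3f30af_co.Near
open Finset

variable {V : Type} [DecidableEq V]

/-- the hypergraph with vertex set `U` and edge set `E` is connected -/
def Conn (U : Finset V) (E : Finset (Finset V)) : Prop :=
  ∀ x ∈ U, ∀ y ∈ U, Relation.ReflTransGen (fun a b => ∃ e ∈ E, a ∈ e ∧ b ∈ e) x y

/-- `(k+1)`-connected: at least `k+2` vertices, connected after deleting any `k` vertices
together with all edges meeting them -/
def KConn (k : ℕ) (U : Finset V) (E : Finset (Finset V)) : Prop :=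
  k + 2 ≤ U.card ∧ ∀ X ⊆ U, X.card = k → Conn (U \ X) (E.filter fun e => Disjoint e X)

/-- no subgraph of the hypergraph with edge set `E` is `(k+1)`-connected -/
def NoSub (k : ℕ) (E : Finset (Finset V)) : Prop :=
  ∀ (U : Finset V) (E' : Finset (Finset V)), E' ⊆ E → (∀ e ∈ E', e ⊆ U) → ¬ KConn k U E'

def nm (r : ℕ) (E : Finset (Finset V)) (U : Finset V) : ℕ := (powersetCard r U \ E).card

theorem cnt (r : ℕ) (E : Finset (Finset V)) (X A B : Finset V) (hAB : Disjoint A B)
    (hA : Disjoint A X) (hB : Disjoint B X) (h : ∀ e ∈ E, e ⊆ A ∪ B → e ⊆ A ∨ e ⊆ B) :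
    nm r E (X ∪ A) + nm r E (X ∪ B) + (A.card + B.card).choose r ≤
      nm r E (X ∪ (A ∪ B)) + nm r E X + A.card.choose r + B.card.choose r := by
  set C := powersetCard r (A ∪ B) \ (powersetCard r A ∪ powersetCard r B) with hC
  have h1 : (A.card + B.card).choose r ≤ C.card + A.card.choose r + B.card.choose r := by
    rw [← card_union_of_disjoint hAB, ← card_powersetCard, ← card_powersetCard, ← card_powersetCard,
      add_assoc]
    exact card_le_card_sdiff_add_card.trans (Nat.add_le_add_left (card_union_le _ _) _)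
  have h2 := card_union_add_card_inter (powersetCard r (X ∪ A) \ E) (powersetCard r (X ∪ B) \ E)
  have h3 : ((powersetCard r (X ∪ A) \ E) ∩ (powersetCard r (X ∪ B) \ E)).card ≤ nm r E X := by
    refine card_le_card fun e he => ?_
    simp only [mem_inter, mem_sdiff, mem_powersetCard] at he ⊢
    refine ⟨⟨fun x hx => ?_, he.1.1.2⟩, he.1.2⟩
    have a1 := mem_union.1 (he.1.1.1 hx)
    have a2 := mem_union.1 (he.2.1.1 hx)
    have : x ∈ A → x ∉ B := fun h => disjoint_left.1 hAB h
    tauto
  have h4 : Disjoint ((powersetCard r (X ∪ A) \ E) ∪ (powersetCard r (X ∪ B) \ E)) C := by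
    refine disjoint_left.2 fun e he hc => ?_
    simp only [hC, mem_union, mem_sdiff, mem_powersetCard, not_or] at he hc
    rcases he with he | he
    · refine hc.2.1 ⟨fun x hx => ?_, hc.1.2⟩
      have a1 := mem_union.1 (he.1.1 hx)
      have a2 := mem_union.1 (hc.1.1 hx)
      have : x ∈ B → x ∉ X := fun h => disjoint_left.1 hB h
      tauto
    · refine hc.2.2 ⟨fun x hx => ?_, hc.1.2⟩
      have a1 := mem_union.1 (he.1.1 hx)
      have a2 := mem_union.1 (hc.1.1 hx)
      have : x ∈ A → x ∉ X := fun h => disjoint_left.1 hA h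
      tauto
  have h5 : (((powersetCard r (X ∪ A) \ E) ∪ (powersetCard r (X ∪ B) \ E)) ∪ C).card ≤
      nm r E (X ∪ (A ∪ B)) := by
    refine card_le_card fun e he => ?_
    simp only [hC, mem_union, mem_sdiff, mem_powersetCard, not_or] at he ⊢
    rcases he with (he | he) | he
    · exact ⟨⟨he.1.1.trans (union_subset_union_right subset_union_left), he.1.2⟩, he.2⟩
    · exact ⟨⟨he.1.1.trans (union_subset_union_right subset_union_right), he.1.2⟩, he.2⟩
    · exact ⟨⟨he.1.1.trans subset_union_right, he.1.2⟩, fun h' => (h e h' he.1.1).elim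
        (fun h => he.2.1 ⟨h, he.1.2⟩) fun h => he.2.2 ⟨h, he.1.2⟩⟩
  rw [card_union_of_disjoint h4] at h5
  simp only [nm] at *
  omega

theorem split (r k : ℕ) (E : Finset (Finset V)) (hE : NoSub k E) (U : Finset V) (m : ℕ)
    (hU : U.card = k + m) (hm : 2 ≤ m) : ∃ (a b : ℕ) (UA UB : Finset V), 1 ≤ a ∧ a ≤ b ∧ a + b = m ∧
    UA.card = k + a ∧ UB.card = k + b ∧
    nm r E UB + m.choose r ≤ nm r E U + a.choose r + b.choose r ∧
    nm r E UA + nm r E UB + m.choose r ≤ nm r E U + k.choose r + a.choose r + b.choose r := by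
  classical
  have h := hE U (E.filter (· ⊆ U)) (filter_subset _ _) fun e he => (mem_filter.1 he).2
  simp only [KConn, Conn, not_and, not_forall] at h
  obtain ⟨X, hX, hk, x, hx, y, hy, hxy⟩ := h (by omega)
  set R := Relation.ReflTransGen fun a b => ∃ e ∈ (E.filter (· ⊆ U)).filter fun e => Disjoint e X,
    a ∈ e ∧ b ∈ e with hR
  have key : ∀ A B : Finset V, A.Nonempty → A.card ≤ B.card → Disjoint A B → A ∪ B = U \ X →
      (∀ e ∈ E, e ⊆ A ∪ B → e ⊆ A ∨ e ⊆ B) → ∃ (a b : ℕ) (UA UB : Finset V), 1 ≤ a ∧ a ≤ b ∧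
      a + b = m ∧ UA.card = k + a ∧ UB.card = k + b ∧
      nm r E UB + m.choose r ≤ nm r E U + a.choose r + b.choose r ∧
      nm r E UA + nm r E UB + m.choose r ≤ nm r E U + k.choose r + a.choose r + b.choose r := by
    intro A B h0 h1 h2 h3 h4
    have hA : Disjoint A X := disjoint_left.2 fun z hz =>
      (mem_sdiff.1 (h3 ▸ mem_union_left B hz)).2
    have hB : Disjoint B X := disjoint_left.2 fun z hz =>
      (mem_sdiff.1 (h3 ▸ mem_union_right A hz)).2
    have h5 := cnt r E X A B h2 hA hB h4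
    have h6 : A.card + B.card = m := by
      rw [← card_union_of_disjoint h2, h3, card_sdiff_of_subset hX]
      omega
    rw [h3, union_sdiff_of_subset hX, h6] at h5
    have h7 : nm r E X ≤ nm r E (X ∪ A) :=
      card_le_card (sdiff_subset_sdiff (powersetCard_mono subset_union_left) Subset.rfl)
    have h8 : nm r E X ≤ k.choose r := by
      rw [← hk, ← card_powersetCard]
      exact card_le_card sdiff_subset
    exact ⟨_, _, X ∪ A, X ∪ B, card_pos.2 h0, h1, h6, by rw [card_union_of_disjoint hA.symm, hk],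
      by rw [card_union_of_disjoint hB.symm, hk], by omega, by omega⟩
  have h1 := filter_union_filter_not_eq (R x) (U \ X)
  have h2 := disjoint_filter_filter_not (U \ X) (U \ X) (R x)
  have h3 : ∀ e ∈ E, e ⊆ U \ X → e ⊆ (U \ X).filter (R x) ∨ e ⊆ (U \ X).filter fun z => ¬ R x z := by
    intro e he h
    by_cases h' : ∃ z ∈ e, R x z
    · obtain ⟨z, z1, z2⟩ := h'
      exact Or.inl fun w hw => mem_filter.2 ⟨h hw, z2.tail ⟨e, mem_filter.2 ⟨mem_filter.2
        ⟨he, h.trans sdiff_subset⟩, disjoint_left.2 fun u hu => (mem_sdiff.1 (h hu)).2⟩, z1, hw⟩⟩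
    · exact Or.inr fun w hw => mem_filter.2 ⟨h hw, fun h'' => h' ⟨w, hw, h''⟩⟩
  rcases le_total ((U \ X).filter (R x)).card ((U \ X).filter fun z => ¬ R x z).card with h4 | h4
  · exact key _ _ ⟨x, mem_filter.2 ⟨hx, Relation.ReflTransGen.refl⟩⟩ h4 h2 h1 fun e he h =>
      h3 e he (h1 ▸ h)
  · rw [union_comm] at h1
    exact key _ _ ⟨y, mem_filter.2 ⟨hy, hxy⟩⟩ h4 h2.symm h1 fun e he h => (h3 e he (h1 ▸ h)).symm

theorem ch1 (a k : ℕ) (h : a ≤ k) (r : ℕ) : a.choose r * k ^ r ≤ k.choose r * a ^ r := by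
  induction r with
  | zero => simp
  | succ r ih =>
    refine Nat.le_of_mul_le_mul_right ?_ (Nat.add_one_pos r)
    have h1 : (a - r) * k ≤ (k - r) * a := by
      rw [Nat.sub_mul, Nat.sub_mul, mul_comm k a]
      exact Nat.sub_le_sub_left (Nat.mul_le_mul_left _ h) _
    calc _ = a.choose (r + 1) * (r + 1) * k ^ (r + 1) := by ring
      _ = a.choose r * k ^ r * ((a - r) * k) := by rw [Nat.choose_succ_right_eq]; ring
      _ ≤ k.choose r * a ^ r * ((k - r) * a) := Nat.mul_le_mul ih h1
      _ = k.choose (r + 1) * (r + 1) * a ^ (r + 1) := by rw [Nat.choose_succ_right_eq]; ring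
      _ = _ := by ring

theorem ch2 (r a b : ℕ) (ha : 1 ≤ a) (h : a ≤ b) :
    2 ^ (r + 1) * a.choose (r + 1) + b.choose (r + 1) ≤
      (a + b).choose (r + 1) + a.choose (r + 1) := by
  induction b, h using Nat.le_induction with
  | base =>
    have h1 := ch1 a (a + a) (by omega) (r + 1)
    rw [← two_mul, mul_pow, ← mul_assoc] at h1
    have h2 := Nat.le_of_mul_le_mul_right h1 (by positivity)
    rw [← two_mul, mul_comm]
    omega
  | succ b hb ih =>
    have := Nat.choose_le_choose r (Nat.le_add_left b a)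
    rw [← add_assoc, Nat.choose_succ_succ' (a + b), Nat.choose_succ_succ' b]
    omega

theorem ch3 (r k : ℕ) (hr : 3 ≤ r) (hk : k < 2 * r) (a : ℕ) (h1 : r ≤ a) (h2 : a ≤ k) :
    k * a.choose r + k * k.choose r ≤ 2 * a * k.choose r := by
  induction h2 using Nat.decreasingInduction with
  | self => nlinarith
  | of_succ a ha ih =>
    have ih := ih (by omega)
    have h3 := Nat.choose_mul_succ_eq a r
    obtain ⟨s, rfl⟩ := Nat.exists_eq_add_of_le h1
    rw [show r + s + 1 - r = s + 1 by omega] at h3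
    obtain ⟨t, ht⟩ : ∃ t, 2 * (r + s + 1) = k + t + 2 := ⟨2 * (r + s) - k, by omega⟩
    have h4 : k * (r + s + 1).choose r ≤ (t + 2) * k.choose r := by nlinarith
    have h5 : (s + 1) * (t + 2) ≤ (r + s + 1) * t := by
      have : 2 * s + 1 ≤ t := by omega
      nlinarith
    have h6 : k * (r + s).choose r * (r + s + 1) ≤ t * k.choose r * (r + s + 1) := by
      calc _ = k * (r + s + 1).choose r * (s + 1) := by rw [mul_assoc, h3, mul_assoc]
        _ ≤ (t + 2) * k.choose r * (s + 1) := Nat.mul_le_mul_right _ h4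
        _ = k.choose r * ((s + 1) * (t + 2)) := by ring
        _ ≤ k.choose r * ((r + s + 1) * t) := Nat.mul_le_mul_left _ h5
        _ = _ := by ring
    have h7 := Nat.le_of_mul_le_mul_right h6 (by omega)
    have h8 : 2 * (r + s) = k + t := by omega
    rw [h8]
    nlinarith

theorem small (r k : ℕ) (hr : 2 ≤ r) (E : Finset (Finset V)) (hE : NoSub k E) (m : ℕ) :
    ∀ U : Finset V, U.card = k + m → (m < 2 * r → m.choose r ≤ nm r E U) ∧
      ((2 : ℝ) ^ r - 2) * m.choose r ≤ (2 ^ r - 1) * nm r E U := by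
  have h0 : (1 : ℝ) ≤ 2 ^ r := one_le_pow₀ one_le_two
  induction m using Nat.strong_induction_on with
  | _ m ih =>
    intro U hU
    rcases Nat.lt_or_ge m 2 with h | h
    · rw [Nat.choose_eq_zero_of_lt (by omega)]
      exact ⟨fun _ => Nat.zero_le _, by
        rw [Nat.cast_zero, mul_zero]
        exact mul_nonneg (by linarith) (by positivity)⟩
    obtain ⟨a, b, UA, UB, h1, h2, h3, -, h4, h5, -⟩ := split r k E hE U m hU h
    obtain ⟨i1, i2⟩ := ih b (by omega) UB h4
    refine ⟨fun h6 => ?_, ?_⟩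
    · have := i1 (by omega)
      rw [Nat.choose_eq_zero_of_lt (show a < r by omega)] at h5
      omega
    · obtain ⟨r, rfl⟩ : ∃ s, r = s + 1 := ⟨r - 1, by omega⟩
      have h6 := ch2 r a b h1 h2
      rw [h3] at h6
      have h7 : (2 : ℝ) ^ (r + 1) * a.choose (r + 1) + b.choose (r + 1) ≤
        m.choose (r + 1) + a.choose (r + 1) := by exact_mod_cast h6
      have h8 : (nm (r + 1) E UB : ℝ) + m.choose (r + 1) ≤
        nm (r + 1) E U + a.choose (r + 1) + b.choose (r + 1) := by exact_mod_cast h5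
      nlinarith

theorem large (r k : ℕ) (hr : 1 ≤ r) (hk : 2 ≤ k) (E : Finset (Finset V)) (hE : NoSub k E) (l : ℝ)
    (hl : 1 ≤ l) (H : ∀ a b : ℕ, a ≤ b → b < k → k ≤ a + b → ∀ U : Finset V, U.card = k + b →
      (k.choose r : ℝ) + a.choose r + b.choose r ≤ nm r E U + l * ((a + b) / k) * k.choose r)
    (m : ℕ) : ∀ U : Finset V, U.card = k + m → k ≤ m →
      (k.choose r : ℝ) + m.choose r ≤ nm r E U + l * (m / k) * k.choose r := by
  induction m using Nat.strong_induction_on with
  | _ m ih =>
    intro U hU hm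
    obtain ⟨a, b, UA, UB, h1, h2, h3, h4, h5, h6, h7⟩ := split r k E hE U m hU (by omega)
    have h8 : (nm r E UB : ℝ) + m.choose r ≤ nm r E U + a.choose r + b.choose r := by
      exact_mod_cast h6
    have h9 : (nm r E UA : ℝ) + nm r E UB + m.choose r ≤
      nm r E U + k.choose r + a.choose r + b.choose r := by exact_mod_cast h7
    have e : l * (m / k) * k.choose r = l * (a / k) * k.choose r + l * (b / k) * k.choose r := by
      rw [← h3]
      push_cast
      ring
    rcases Nat.lt_or_ge b k with hb | hb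
    · have := H a b h2 hb (by omega) UB h5
      rw [← Nat.cast_add a b, h3] at this
      linarith
    have i2 := ih b (by omega) UB h5 hb
    rcases Nat.lt_or_ge a k with ha | ha
    · have k0 : (0 : ℝ) < k := by positivity
      have t1 : (a.choose r : ℝ) * k ^ r ≤ k.choose r * a ^ r := by exact_mod_cast ch1 a k ha.le r
      have t2 : ((a : ℝ) / k) ^ r ≤ a / k := pow_le_of_le_one (by positivity)
        ((div_le_one k0).2 (by exact_mod_cast ha.le)) (by omega)
      rw [← le_div_iff₀ (by positivity), mul_div_assoc, ← div_pow] at t1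
      have t3 : (0 : ℝ) ≤ a / k * k.choose r := by positivity
      have t4 : (0 : ℝ) ≤ k.choose r := by positivity
      nlinarith
    · have i1 := ih a (by omega) UA h4 ha
      linarith

theorem result (r k n : ℕ) (hr : 3 ≤ r) (hk : r ≤ k) (hn : 2 * k ≤ n) (E : Finset (Finset (Fin n)))
    (hu : ∀ e ∈ E, e.card = r) (hE : NoSub k E) :
    (E.card : ℝ) ≤ n.choose r - (n - k).choose r +
      ((2 : ℝ) ^ r / (2 ^ r - 1) * ((n : ℝ) / k - 1) - 1) * k.choose r ∧
    (k < 2 * r → (E.card : ℝ) ≤ n.choose r - (n - k).choose r + ((n : ℝ) / k - 2) * k.choose r) := by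
  have k0 : (0 : ℝ) < k := by exact_mod_cast (by omega : 0 < k)
  have h0 : (nm r E univ : ℝ) + E.card = n.choose r := by
    rw [nm, ← Nat.cast_add, card_sdiff_add_card_eq_card fun e he =>
      mem_powersetCard.2 ⟨subset_univ _, hu e he⟩, card_powersetCard, card_fin]
  have hU : (univ : Finset (Fin n)).card = k + (n - k) := by
    rw [card_fin]
    omega
  have e : ((n - k : ℕ) : ℝ) / k = n / k - 1 := by
    rw [Nat.cast_sub (by omega)]
    field_simp
  have h2 : (1 : ℝ) < 2 ^ r := one_lt_pow₀ one_lt_two (by omega)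
  have t4 : (0 : ℝ) ≤ k.choose r := by positivity
  refine ⟨?_, fun h => ?_⟩
  · have := large r k (by omega) (by omega) E hE (2 ^ r / (2 ^ r - 1))
      ((one_le_div (by linarith)).2 (by linarith)) (fun a b h1 h3 h4 U h5 => by
      have s1 := (small r k (by omega) E hE b U h5).2
      have t1 : (a.choose r : ℝ) * k ^ r ≤ k.choose r * a ^ r := by
        exact_mod_cast ch1 a k (by omega) r
      have t2 : (b.choose r : ℝ) * k ^ r ≤ k.choose r * b ^ r := by
        exact_mod_cast ch1 b k (by omega) r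
      rw [← le_div_iff₀ (by positivity), mul_div_assoc, ← div_pow] at t1 t2
      have x1 : (a : ℝ) / k ≤ b / k := by gcongr
      have x2 : (b : ℝ) / k ≤ 1 := (div_le_one k0).2 (by exact_mod_cast h3.le)
      have x3 : (1 : ℝ) ≤ a / k + b / k := by
        rw [← add_div, one_le_div k0]
        exact_mod_cast h4
      rw [add_div]
      generalize (a : ℝ) / k = x at *
      generalize (b : ℝ) / k = y at *
      have w : ∀ z : ℝ, 0 ≤ z → ((y - x) * z + (2 - 2 * y) * (1 / 2) + (x + y - 1) * 1) ^ r ≤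
          (y - x) * z ^ r + (2 - 2 * y) * (1 / 2) ^ r + (x + y - 1) * 1 ^ r := fun z hz => by
        have := Real.pow_arith_mean_le_arith_mean_pow univ ![y - x, 2 - 2 * y, x + y - 1]
          ![z, 1 / 2, 1] (fun i _ => by fin_cases i <;> simp <;> linarith)
          (by simp [Fin.sum_univ_three]; ring) (fun i _ => by fin_cases i <;> simp [hz]) r
        simpa only [Fin.sum_univ_three, Matrix.cons_val_zero, Matrix.cons_val_one,
          Matrix.cons_val] using this
      have w0 := w 0 le_rfl
      have w1 := w 1 zero_le_one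
      rw [zero_pow (by omega), one_pow, show (y - x) * 0 + (2 - 2 * y) * (1 / 2) + (x + y - 1) * 1 = x
        by ring] at w0
      rw [one_pow, show (y - x) * 1 + (2 - 2 * y) * (1 / 2) + (x + y - 1) * 1 = y by ring] at w1
      have q : (2 : ℝ) ^ r * (1 / 2) ^ r = 1 := by
        rw [← mul_pow]
        norm_num
      have f : (2 ^ r - 1) + (2 ^ r - 1) * x ^ r + y ^ r ≤ 2 ^ r * (x + y) := by
        have := mul_le_mul_of_nonneg_left w0 (by linarith : (0 : ℝ) ≤ 2 ^ r - 1)
        have q2 : (2 - 2 * y) * (2 ^ r * (1 / 2) ^ r) = 2 - 2 * y := by rw [q, mul_one]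
        nlinarith
      refine le_of_mul_le_mul_left ?_ (by linarith : (0 : ℝ) < 2 ^ r - 1)
      have e2 : (2 ^ r - 1) * (2 ^ r / (2 ^ r - 1) * (x + y) * k.choose r) =
          2 ^ r * (x + y) * (k.choose r : ℝ) := by
        have : (2 : ℝ) ^ r - 1 ≠ 0 := by linarith
        field_simp
      rw [mul_add (2 ^ r - 1) (nm r E U : ℝ), e2]
      nlinarith [mul_le_mul_of_nonneg_right f t4,
        mul_le_mul_of_nonneg_left t1 (by linarith : (0 : ℝ) ≤ 2 ^ r - 1)]) _ univ hU (by omega)
    rw [e] at this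
    linarith
  · have := large r k (by omega) (by omega) E hE 1 le_rfl (fun a b h1 h3 h4 U h5 => by
      have s1 : (b.choose r : ℝ) ≤ nm r E U := by
        exact_mod_cast (small r k (by omega) E hE b U h5).1 (by omega)
      have s2 : k * a.choose r + k * k.choose r ≤ (a + b) * k.choose r := by
        rcases Nat.lt_or_ge a r with h6 | h6
        · rw [Nat.choose_eq_zero_of_lt h6, mul_zero, zero_add]
          exact Nat.mul_le_mul_right _ h4
        · exact (ch3 r k hr h a h6 (by omega)).trans (Nat.mul_le_mul_right _ (by omega))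
      have s3 : (k : ℝ) * a.choose r + k * k.choose r ≤ (a + b) * k.choose r := by exact_mod_cast s2
      have s4 : (a.choose r : ℝ) + k.choose r ≤ (a + b) / k * k.choose r := by
        rw [div_mul_eq_mul_div, le_div_iff₀ k0]
        linarith
      linarith) _ univ hU (by omega)
    rw [e] at this
    linarith

end Pool.Agent.Results.MP_3f30af_co.Near
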